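import Pool.Agent.R38.FA.Main

/-!
# The numbers `δ_w` are approximated by posets of explicitly bounded size

For every `ε` every finite poset `P` of width `w` can be replaced by a poset `P'` of the same width
with at most `max (w, exp exp exp (C log(2/ε)³ / ε⁴))` elements and `δ(P') ≤ δ(P) + ε`.  So `δ_w` is,
up to `ε`, the minimum of the balance constants of the posets of width `w` of bounded size, and the
inequality `δ_w < δ_{w+1}` of the question, if it is true for a given `w`, is established by a finite
computation (part (3)).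

Proof.  By the starting file `ManyIncomparable` one may assume that every element of `P` is
incomparable to at most `K(ε)` others.  Number the elements along a linear extension.  Then elements
whose numbers differ by at least `m = 2 K + 2` are comparable.  Look at a random linear extension as a
Markov chain on the lower sets.  Any two upper sets whose sizes differ by `2 m` are nested, so that the
numbers of ways to pass between them lie between `1` and `m ^ (2 m)`, and the conditional probability
that `x` comes before `y` depends on the past by at most `(1 - m ^ (-2 m)) ^ j` if the past is `2 m j`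
steps away (`forget`).  Hence `P(x before y)` is determined up to `ε` by a window of `l(ε)` consecutive
elements around `x` and `y`.  If three windows of length `l` of `P` are isomorphic (as numbered posets),
then the part between two of them can be cut out (`cut`): all the windows of the new poset are windows
of `P`, and an antichain with `w` elements survives one of the cuts.  In a shortest poset obtained in
this way every window occurs at most twice.
-/

set_option autoImplicit false

namespace Pool.Agent.Results.MP_c890a7_co.FiniteApproximation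

open Pool.Agent.R38.FA

/-- **Theorem.** There is an absolute constant `C > 0` such that, with
`E(ε) = exp (exp (exp (C log(2/ε)³ / ε⁴)))`:
(1) for all `0 < ε ≤ 1/2`, every finite poset `r` of width `w` there is a poset `r'` of width `w` with
at most `max (w, E(ε))` elements and balance constant at most `balance r + ε`;
(2) for all `0 < ε ≤ 1/2`, all `w` and `N ≥ max (w, E(ε))`, the minimum `deltaN N w` of the balance
constants of the posets of width `w` with at most `N` elements satisfies
`δ_w ≤ deltaN N w ≤ δ_w + ε`;
(3) for every `w`, `δ_w < δ_{w+1}` if and only if `deltaN N w + ε < deltaN N (w + 1)` for some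
`0 < ε ≤ 1/2` and some `N ≥ max (w + 1, E(ε))`. -/
theorem result : ∃ C : ℝ, 0 < C ∧
    (∀ ε : ℝ, 0 < ε → ε ≤ 1 / 2 → ∀ (w n : ℕ) (r : Fin n → Fin n → Prop),
      IsPosetOfWidth r w →
      ∃ (n' : ℕ) (r' : Fin n' → Fin n' → Prop), IsPosetOfWidth r' w ∧
        (n' : ℝ) ≤ max (w : ℝ)
          (Real.exp (Real.exp (Real.exp (C * Real.log (2 / ε) ^ 3 / ε ^ 4)))) ∧
        balance r' ≤ balance r + ε) ∧
    (∀ ε : ℝ, 0 < ε → ε ≤ 1 / 2 → ∀ w N : ℕ, w ≤ N →
      Real.exp (Real.exp (Real.exp (C * Real.log (2 / ε) ^ 3 / ε ^ 4))) ≤ N →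
      delta w ≤ deltaN N w ∧ deltaN N w ≤ delta w + ε) ∧
    (∀ w : ℕ, delta w < delta (w + 1) ↔
      ∃ (ε : ℝ) (N : ℕ), 0 < ε ∧ ε ≤ 1 / 2 ∧ w + 1 ≤ N ∧
        Real.exp (Real.exp (Real.exp (C * Real.log (2 / ε) ^ 3 / ε ^ 4))) ≤ N ∧
        deltaN N w + ε < deltaN N (w + 1)) := by
  obtain ⟨C, hC, h⟩ := approx
  have h2 : ∀ ε : ℝ, 0 < ε → ε ≤ 1 / 2 → ∀ w N : ℕ, w ≤ N →
      Real.exp (Real.exp (Real.exp (C * Real.log (2 / ε) ^ 3 / ε ^ 4))) ≤ N →
      delta w ≤ deltaN N w ∧ deltaN N w ≤ delta w + ε := fun ε hε hε2 w N hw hN =>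
    ⟨delta_le_deltaN hw, deltaN_le (h ε hε hε2) hw hN⟩
  refine ⟨C, hC, h, h2, fun w => ⟨fun hlt => ?_, ?_⟩⟩
  · obtain ⟨g, hg⟩ : ∃ g, g = delta (w + 1) - delta w := ⟨_, rfl⟩
    have hg0 : 0 < g := by rw [hg]; linarith
    obtain ⟨ε, hε⟩ : ∃ ε, ε = min (1 / 2) (g / 3) := ⟨_, rfl⟩
    have hε0 : 0 < ε := by rw [hε]; positivity
    have hε1 : ε ≤ 1 / 2 := by rw [hε]; exact min_le_left _ _
    have hε2 : ε ≤ g / 3 := by rw [hε]; exact min_le_right _ _
    obtain ⟨M, hM⟩ := exists_nat_ge
      (Real.exp (Real.exp (Real.exp (C * Real.log (2 / ε) ^ 3 / ε ^ 4))))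
    refine ⟨ε, max M (w + 1), hε0, hε1, le_max_right _ _, hM.trans ?_, ?_⟩
    · exact_mod_cast le_max_left _ _
    · have e1 := (h2 ε hε0 hε1 w (max M (w + 1)) ((Nat.le_succ w).trans (le_max_right _ _))
        (hM.trans (by exact_mod_cast le_max_left _ _))).2
      have e2 := delta_le_deltaN (N := max M (w + 1)) (w := w + 1) (le_max_right _ _)
      linarith
  · rintro ⟨ε, N, hε0, hε1, hw, hN, hlt⟩
    have e1 := (h2 ε hε0 hε1 w N (by omega) hN).1
    have e2 := (h2 ε hε0 hε1 (w + 1) N hw hN).2
    linarith

end Pool.Agent.Results.MP_c890a7_co.FiniteApproximation
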