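import Mathlib
import Pool.Agent.R636.BGap8
import Pool.Agent.R756.CH.Fin
import Pool.Agent.TH447.KS.SemiFin
import Pool.Agent.TH447.KL.Inc

/-!
# The step from width two to larger widths

`dAll w` is the number `δ_w` of the problem, the infimum of the balance constants of the finite posets
of width `w`.  Let `K` be the class of the posets which are built by disjoint sums and direct sums from
posets that satisfy at least one of the following conditions: there is no induced `V + 1`; there is
no induced `Λ + 1`; the poset is the poset of cells of a Young diagram; it has a thin maximal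
antichain with at least three elements; every element is incomparable to at most three elements; it
is a semiorder; it has a nontrivial automorphism; two different elements have average heights that
differ by at most `1/20`.  All posets of width at most two are in `K`.

* In the class `K` the first two strict inequalities of the problem hold: if `dK w` is the infimum for
  the posets of width `w` in `K`, then `dK 1 = δ_1 = 0`, `dK 2 = δ_2 = 1/3`, and there is an `ε > 0`
  with `dK w ≥ 1/3 + ε` for every `w ≥ 3`.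
* So the inequality `δ_2 < inf_{w ≥ 3} δ_w` of the problem can fail only because of irreducible posets
  outside of `K`, which in particular are rigid, have average heights at distance more than `1/20`
  from each other, and contain `V + 1` and `Λ + 1`: a gap above `1/3` for the posets that are
  irreducible and satisfy none of the conditions gives the gap for all `δ_w`, `w ≥ 3`.
-/

set_option autoImplicit false

namespace Pool.Agent.Results.MP_c890a7_co.FirstStepRigid

open Pool.Agent.H13R3.WB Pool.Agent.H931R3.Bal Pool.Agent.R636.BG Pool.Agent.R756.CH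
open Pool.Agent.TH447.KS Pool.Agent.TH447.KL

/-- The posets that the class `K` is built from. -/
def Base (P : Type) [PartialOrder P] : Prop :=
  Nonempty P ∧
    (VOneFree P ∨ VOneFree Pᵒᵈ ∨
      (∃ μ : YoungDiagram, Nonempty (P ≃o μ.cells)) ∨
      (∃ A : Finset P, ThinAnti P A ∧ 3 ≤ A.card) ∨
      (∀ x : P, Nat.card {y : P // ¬ x ≤ y ∧ ¬ y ≤ x} ≤ 3) ∨
      IsSemiorder P ∨
      (∃ φ : P ≃o P, ∃ x, φ x ≠ x) ∨
      (∃ (_ : Fintype P) (x y : P), x ≠ y ∧ |avgHeight P x - avgHeight P y| ≤ 1 / 20))

/-- The class `K`. -/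
def InK (P : Type) [PartialOrder P] : Prop := Built Base P

/-- The infimum of the balance constants of the posets of width `w` in the class `K`. -/
noncomputable def dK (w : ℕ) : ℝ :=
  sInf {d : ℝ | ∃ (P : Type) (_ : Fintype P) (_ : PartialOrder P), InK P ∧
    HasWidth P w ∧ balance P = d}

theorem base_gap : ∃ ε : ℝ, 0 < ε ∧ ε ≤ 1 / 30 ∧ ∀ (P : Type) [Fintype P] [PartialOrder P], Base P →
    InD P ∨ 1 / 3 + ε ≤ balance P := by
  obtain ⟨ε1, h1, h1'⟩ := class_gap
  obtain ⟨ε2, h2, h2'⟩ := thin_gap
  set ε := min (min ε1 ε2) (1 / 3000000) with hε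
  have e1 : ε ≤ ε1 := (min_le_left _ _).trans (min_le_left _ _)
  have e2 : ε ≤ ε2 := (min_le_left _ _).trans (min_le_right _ _)
  have e3 : ε ≤ 1 / 3000000 := min_le_right _ _
  refine ⟨ε, lt_min (lt_min h1 h2) (by norm_num), by linarith, ?_⟩
  intro P iF iP hP
  obtain ⟨hne, hP⟩ := hP
  rcases hP with hP | hP | hP | ⟨A, hA, hA3⟩ | hP | hP | ⟨φ, hφ⟩ | ⟨i, x, y, hxy, hh⟩
  · rcases h1' P (Built.of P ⟨hne, Or.inl hP⟩) with h | h
    · exact Or.inl h
    · right; linarith
  · rcases h1' P (Built.of P ⟨hne, Or.inr (Or.inl hP)⟩) with h | h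
    · exact Or.inl h
    · right; linarith
  · rcases h1' P (Built.of P ⟨hne, Or.inr (Or.inr hP)⟩) with h | h
    · exact Or.inl h
    · right; linarith
  · right
    linarith [(h2' P).1 A hA hA3]
  · rcases (h2' P).2 hP with h | h
    · exact Or.inl h
    · right; linarith
  · rcases semi_gap _ P rfl hP with h | h
    · exact Or.inl h
    · right; linarith
  · right
    have h3 := balance_auto φ hφ
    have h4 := exp_ge
    linarith
  · right
    obtain rfl : i = iF := Subsingleton.elim _ _
    have := balance_gap hxy hh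
    linarith

theorem K_gap : ∃ ε : ℝ, 0 < ε ∧ ε ≤ 1 / 30 ∧ (∀ (P : Type) [Fintype P] [PartialOrder P], InK P →
    Nonempty P ∧ (InD P ∨ 1 / 3 + ε ≤ balance P)) ∧
    (∀ (P : Type) [Fintype P] [PartialOrder P], Base P → InD P ∨ 1 / 3 + ε ≤ balance P) := by
  obtain ⟨ε, h1, h2, h3⟩ := base_gap
  refine ⟨ε, h1, h2, fun P _ _ hP => ?_, h3⟩
  exact Built.gap (c := 1 / 3 + ε) (by linarith) (fun Q _ _ hQ => ⟨hQ.1, h3 Q hQ⟩) hP

lemma width_two_inK {P : Type} [PartialOrder P] {w : ℕ} (hw1 : 1 ≤ w) (hw : w ≤ 2)
    (h : HasWidth P w) : InK P := by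
  classical
  refine Built.of P ⟨HasWidth.nonempty h hw1, Or.inl ?_⟩
  intro x a b c _ _ hab hba _ _ hac hca hbc hcb
  have hne1 : a ≠ b := fun e => hab (e ▸ le_rfl)
  have hne2 : a ≠ c := fun e => hac (e ▸ le_rfl)
  have hne3 : b ≠ c := fun e => hbc (e ▸ le_rfl)
  have hanti : IsAntichain (· ≤ ·) (({a, b, c} : Finset P) : Set P) := by
    intro u hu v hv huv hle
    simp only [Finset.coe_insert, Finset.coe_singleton, Set.mem_insert_iff,
      Set.mem_singleton_iff] at hu hv
    rcases hu with rfl | rfl | rfl <;> rcases hv with rfl | rfl | rfl <;>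
      first
        | exact huv rfl
        | exact hab hle
        | exact hba hle
        | exact hac hle
        | exact hca hle
        | exact hbc hle
        | exact hcb hle
  have h3 := h.2 {a, b, c} hanti
  have h4 : ({a, b, c} : Finset P).card = 3 := by
    rw [Finset.card_insert_of_notMem, Finset.card_pair hne3]
    simp only [Finset.mem_insert, Finset.mem_singleton, not_or]
    exact ⟨hne1, hne2⟩
  omega

lemma built_of_sp {P : Type} [PartialOrder P] (h : SeriesParallel P) : InK P := by
  induction h with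
  | one P e => exact Built.one P e
  | disj P Q R _ _ e ih1 ih2 => exact Built.disj P Q R ih1 ih2 e
  | direct P Q R _ _ e ih1 ih2 => exact Built.direct P Q R ih1 ih2 e

lemma dK_eq_dAll {w : ℕ} (hw1 : 1 ≤ w) (hw : w ≤ 2) : dK w = dAll w := by
  unfold dK dAll
  congr 1
  ext d
  constructor
  · rintro ⟨P, i1, i2, -, h2, h3⟩
    exact ⟨P, i1, i2, h2, h3⟩
  · rintro ⟨P, i1, i2, h2, h3⟩
    exact ⟨P, i1, i2, width_two_inK hw1 hw h2, h2, h3⟩

lemma dK_ge {w : ℕ} (hw : 1 ≤ w) {c : ℝ} (h : ∀ (P : Type) [Fintype P] [PartialOrder P],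
    InK P → HasWidth P w → c ≤ balance P) : c ≤ dK w := by
  unfold dK
  apply le_csInf
  · obtain ⟨P, i1, i2, h1, h2⟩ := exists_width w hw
    exact ⟨_, P, i1, i2, built_of_sp h1, h2, rfl⟩
  · rintro d ⟨P, _, _, h1, h2, rfl⟩
    exact h P h1 h2

lemma dK_le {w : ℕ} (hw : 1 ≤ w) (P : Type) [Fintype P] [PartialOrder P] (h1 : InK P)
    (h2 : HasWidth P w) : dK w ≤ balance P := by
  unfold dK
  apply csInf_le
  · refine ⟨0, ?_⟩
    rintro d ⟨Q, _, _, -, h4, rfl⟩
    have := HasWidth.nonempty h4 hw
    exact balance_nonneg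
  · exact ⟨P, inferInstance, inferInstance, h1, h2, rfl⟩

lemma dAll_ge {w : ℕ} (hw : 1 ≤ w) {c : ℝ} (h : ∀ (P : Type) [Fintype P] [PartialOrder P],
    HasWidth P w → c ≤ balance P) : c ≤ dAll w := by
  unfold dAll
  apply le_csInf
  · obtain ⟨P, i1, i2, h1, h2⟩ := exists_width w hw
    exact ⟨_, P, i1, i2, h2, rfl⟩
  · rintro d ⟨P, _, _, h2, rfl⟩
    exact h P h2

lemma dK_one : dK 1 = 0 := by
  apply le_antisymm
  · exact (dK_le le_rfl (Fin 1) (built_of_sp sp_one) width_one).trans
      (by rw [balance_chain (fun x y => le_total x y)])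
  · apply dK_ge le_rfl
    intro P _ _ _ h2
    have := HasWidth.nonempty h2 le_rfl
    exact balance_nonneg

lemma dK_two : dK 2 = 1 / 3 := by
  obtain ⟨ε, h0, -, h1, -⟩ := K_gap
  apply le_antisymm
  · exact (dK_le (by norm_num) EE (built_of_sp sp_EE) width_EE).trans balance_EE_le
  · apply dK_ge (by norm_num)
    intro P _ _ hP h2
    rcases (h1 P hP).2 with h | h
    · rcases InD_third h with h3 | h3
      · exact absurd h3 (not_total_of_width le_rfl h2)
      · exact h3
    · linarith

/-- The first two strict inequalities of the problem hold in the class `K`, with the values of the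
problem for the widths one and two; and the inequality `δ_2 < inf_{w ≥ 3} δ_w` for all posets follows
from a gap for the irreducible posets that satisfy none of the conditions in `Base`. -/
theorem result :
    (dK 1 = dAll 1 ∧ dAll 1 = 0) ∧ (dK 2 = dAll 2 ∧ dAll 2 = 1 / 3) ∧
    (∃ ε : ℝ, 0 < ε ∧ ∀ w : ℕ, 3 ≤ w → dAll 2 + ε ≤ dK w ∧
      ∀ (P : Type) [Fintype P] [PartialOrder P], InK P → HasWidth P w →
        dAll 2 + ε ≤ balance P) ∧
    ((∃ c : ℝ, 0 < c ∧ ∀ (P : Type) [Fintype P] [PartialOrder P] [Nonempty P], Irreducible P →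
        ¬ Base P → 1 / 3 + c ≤ balance P) →
      ∃ ε : ℝ, 0 < ε ∧ ∀ w : ℕ, 3 ≤ w → dAll 2 + ε ≤ dAll w) := by
  obtain ⟨ε, h0, hε, h1, hb⟩ := K_gap
  have e1 := dK_eq_dAll (w := 1) le_rfl (by norm_num)
  have e2 := dK_eq_dAll (w := 2) (by norm_num) le_rfl
  have a1 : dAll 1 = 0 := by rw [← e1, dK_one]
  have a2 : dAll 2 = 1 / 3 := by rw [← e2, dK_two]
  have key : ∀ w : ℕ, 3 ≤ w → ∀ (P : Type) [Fintype P] [PartialOrder P], InK P → HasWidth P w →
      dAll 2 + ε ≤ balance P := by
    intro w hw P _ _ hP h2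
    rw [a2]
    rcases (h1 P hP).2 with h | h
    · exfalso
      obtain ⟨⟨s, hs, hsc⟩, _⟩ := h2
      have := InD_width_le h s hs
      omega
    · exact h
  refine ⟨⟨e1, a1⟩, ⟨e2, a2⟩, ⟨ε, h0, fun w hw => ⟨?_, key w hw⟩⟩, ?_⟩
  · exact dK_ge (by omega) (key w hw)
  · rintro ⟨c, hc, h⟩
    have hm1 := min_le_left ε c
    have hm2 := min_le_right ε c
    refine ⟨min ε c, lt_min h0 hc, fun w hw => ?_⟩
    apply dAll_ge (by omega)
    intro P _ _ h2
    have hne := HasWidth.nonempty h2 (by omega)
    rw [a2]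
    have hred : ∀ (Q : Type) [Fintype Q] [PartialOrder Q] [Nonempty Q], Irreducible Q →
        InD Q ∨ 1 / 3 + min ε c ≤ balance Q := by
      intro Q _ _ _ hQ
      by_cases hB : Base Q
      · rcases hb Q hB with h3 | h3
        · exact Or.inl h3
        · right; linarith
      · right
        linarith [h Q hQ hB]
    rcases reduction (c := 1 / 3 + min ε c) (by linarith) hred P with h3 | h3
    · exfalso
      obtain ⟨⟨s, hs, hsc⟩, _⟩ := h2
      have := InD_width_le h3 s hs
      omega
    · exact h3

end Pool.Agent.Results.MP_c890a7_co.FirstStepRigid
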