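import Mathlib
import Pool.Agent.H581.KS.Iter
import Pool.Agent.H581.KS.Conv
import Pool.Agent.H293R3.BC.Count

/-!
# The minimal balance constants are not within `O(1/w)` of one half

With `δ_w` the infimum of the balance constants of the finite posets of width `w`, as in the
problem, `δ_w ≤ 1/2 - log w / (20000 w)` for every `w ≥ 1`; in particular `w (1/2 - δ_w)` tends to
infinity, so that even if `δ_w → 1/2` (Kahn and Saks), the convergence is slower than `C / w` for
every constant `C`.

The posets are built by repeatedly adding, below everything, an ordinal sum of half graphs and a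
chain and then an element incomparable to everything.  The average heights of the elements of a half
graph with `2r` elements stay at distance at least `(r+1)/8` from both ends, which makes room for
logarithmically more isolated elements than a chain does.
-/

set_option autoImplicit false

namespace Pool.Agent.Results.MP_c890a7_co.LogRate

open Filter

theorem result :
    ∀ δ : ℕ → ℝ,
      (∀ w : ℕ, δ w = sInf {d : ℝ | ∃ (n : ℕ) (r : Fin n → Fin n → Prop),
          (∀ a, r a a) ∧ (∀ a b c, r a b → r b c → r a c) ∧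
          (∀ a b, r a b → r b a → a = b) ∧
          (∃ s : Finset (Fin n), s.card = w ∧ ∀ a ∈ s, ∀ b ∈ s, a ≠ b → ¬ r a b) ∧
          (∀ s : Finset (Fin n), (∀ a ∈ s, ∀ b ∈ s, a ≠ b → ¬ r a b) → s.card ≤ w) ∧
          d = sSup {t : ℝ | ∃ x y : Fin n, ¬ r x y ∧ ¬ r y x ∧
            t = min
              ((Nat.card {σ : Equiv.Perm (Fin n) //
                  (∀ a b, r a b → σ a ≤ σ b) ∧ σ x < σ y} : ℝ) /
                (Nat.card {σ : Equiv.Perm (Fin n) // ∀ a b, r a b → σ a ≤ σ b} : ℝ))
              ((Nat.card {σ : Equiv.Perm (Fin n) //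
                  (∀ a b, r a b → σ a ≤ σ b) ∧ σ y < σ x} : ℝ) /
                (Nat.card {σ : Equiv.Perm (Fin n) // ∀ a b, r a b → σ a ≤ σ b} : ℝ))}}) →
      (∀ w : ℕ, 1 ≤ w → δ w ≤ 1 / 2 - Real.log w / (20000 * (w : ℝ))) ∧
      Tendsto (fun w : ℕ => (w : ℝ) * (1 / 2 - δ w)) atTop atTop := by
  classical
  intro δ hδ
  have key : ∀ w : ℕ, 1 ≤ w → δ w ≤ 1 / 2 - Real.log w / (20000 * (w : ℝ)) := by
    intro w hw
    have hw1 : (1 : ℝ) ≤ w := by exact_mod_cast hw
    have hw0 : (0 : ℝ) < w := by linarith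
    have hll : Real.log w ≤ w := (Real.log_le_sub_one_of_pos hw0).trans (by linarith)
    have hb : (0 : ℝ) ≤ 1 / 2 - Real.log w / (20000 * (w : ℝ)) := by
      have : Real.log w / (20000 * (w : ℝ)) ≤ 1 / 2 := by
        rw [div_le_iff₀ (by positivity)]
        linarith
      linarith
    have main : ∀ (n : ℕ) (r : Fin n → Fin n → Prop),
        (∀ a, r a a) → (∀ a b c, r a b → r b c → r a c) →
        (∀ a b, r a b → r b a → a = b) →
        (∃ s : Finset (Fin n), s.card = w ∧ ∀ a ∈ s, ∀ b ∈ s, a ≠ b → ¬ r a b) →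
        (∀ s : Finset (Fin n), (∀ a ∈ s, ∀ b ∈ s, a ≠ b → ¬ r a b) → s.card ≤ w) →
        (∀ x y : Fin n, ¬ r x y → ¬ r y x → min
              ((Nat.card {σ : Equiv.Perm (Fin n) //
                  (∀ a b, r a b → σ a ≤ σ b) ∧ σ x < σ y} : ℝ) /
                (Nat.card {σ : Equiv.Perm (Fin n) // ∀ a b, r a b → σ a ≤ σ b} : ℝ))
              ((Nat.card {σ : Equiv.Perm (Fin n) //
                  (∀ a b, r a b → σ a ≤ σ b) ∧ σ y < σ x} : ℝ) /
                (Nat.card {σ : Equiv.Perm (Fin n) // ∀ a b, r a b → σ a ≤ σ b} : ℝ)) ≤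
              1 / 2 - Real.log w / (20000 * (w : ℝ))) →
        δ w ≤ 1 / 2 - Real.log w / (20000 * (w : ℝ)) := by
      intro n r h1 h2 h3 h4 h5 h6
      rw [hδ w]
      refine csInf_le_of_le ⟨0, ?_⟩ ⟨n, r, h1, h2, h3, h4, h5, rfl⟩ ?_
      · rintro d ⟨m, q, -, -, -, -, -, rfl⟩
        apply Real.sSup_nonneg
        rintro t ⟨x, y, -, -, rfl⟩
        exact le_min (by positivity) (by positivity)
      · apply Real.sSup_le _ hb
        rintro t ⟨x, y, hxy, hyx, rfl⟩
        exact h6 x y hxy hyx
    rcases le_or_gt 14641 w with hbig | hsmall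
    · obtain ⟨n, S, hex⟩ := Pool.Agent.H581.KS.exists_ex w hbig
      obtain ⟨r, h1, h2, h3, h4, h5, h6⟩ := Pool.Agent.H581.KS.exists_rel hex
      exact main n r h1 h2 h3 h4 h5 h6
    · obtain ⟨n, r, -, -, h⟩ := Pool.Agent.H293R3.BC.exists_poset w hw
      refine main n r h.po.1 h.po.2.1 h.po.2.2 h.wid h.wid_le ?_
      intro x y hxy hyx
      rw [Pool.Agent.H293R3.BC.card_E, Pool.Agent.H293R3.BC.card_A, Pool.Agent.H293R3.BC.card_A]
      refine (h.bal x y hxy hyx).trans ?_
      have h11 : Real.log w ≤ 40 := by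
        have h1 : Real.log w ≤ Real.log ((11 : ℝ) ^ 4) := by
          apply Real.log_le_log hw0
          have : (w : ℝ) ≤ 14641 := by exact_mod_cast hsmall.le
          linarith
        rw [Real.log_pow] at h1
        have h2 : Real.log (11 : ℝ) ≤ 10 := by
          have := Real.log_le_sub_one_of_pos (show (0 : ℝ) < 11 by norm_num)
          linarith
        push_cast at h1
        linarith
      have : Real.log w / (20000 * (w : ℝ)) ≤ 1 / (12 * (w : ℝ) - 8) := by
        rw [div_le_div_iff₀ (by positivity) (by linarith)]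
        have h3 : Real.log w * (12 * (w : ℝ) - 8) ≤ 40 * (12 * (w : ℝ) - 8) :=
          mul_le_mul_of_nonneg_right h11 (by linarith)
        linarith
      linarith
  refine ⟨key, ?_⟩
  have hlog : Tendsto (fun w : ℕ => Real.log w / 20000) atTop atTop :=
    (Real.tendsto_log_atTop.comp tendsto_natCast_atTop_atTop).atTop_div_const (by norm_num)
  refine tendsto_atTop_mono' atTop ?_ hlog
  filter_upwards [eventually_ge_atTop 1] with w hw
  have hw0 : (0 : ℝ) < w := by exact_mod_cast hw
  have h1 := key w hw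
  have h2 : (w : ℝ) * (Real.log w / (20000 * w)) = Real.log w / 20000 := by
    field_simp
  rw [← h2]
  apply mul_le_mul_of_nonneg_left _ hw0.le
  linarith

end Pool.Agent.Results.MP_c890a7_co.LogRate
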